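import Pool.Agent.H37.Hf4

set_option autoImplicit false

open Pool.Agent.H37 Attr Defc

theorem Pool.Agent.Results.MP_99e598_lc.No.result : ∃ A : ℕ → Bool, Attractive A ∧
    (∀ f : ℕ → ℕ, TuringReducible (fun n => Part.some (f n)) (ora A) →
      ∃ g : ℕ → ℕ, Computable g ∧ ∀ n, f n ≤ g n) ∧
    ∀ R : ℕ → Bool, TuringReducible (ora R) (ora A) → ¬ MLRandom R :=
  Hf.main.imp fun _ h => ⟨h.1, fun f hf => (h.2.1 f (Hd.tr_fun.1 hf)).imp fun _ a =>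
    ⟨a.1.computable, a.2⟩, fun R hR => h.2.2 R (Hd.tr_iff.1 hR)⟩
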